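import Pool.Agent.T2h8.GEO.Defs

/-!
# The construction

The vertices are labels `(i, j, t)` with `i, j < n`.  The labels `(i, j, 0)` form the complete graph
on `n` vertices `(i, i, 0)` in which every edge `i j` is replaced by a path
`(i, i, 0), (i, j, 0), (j, i, 0), (j, j, 0)` of length three.  The labels with `t > 0` are pendant
vertices at `(i, j, 0)`: two of them if `i = j`, one if `i ≠ j` are adjacent in the given graph, and
none otherwise.
-/

set_option autoImplicit false

namespace Pool.Agent.T2h8.GEO

/-- adjacency in the subdivided complete graph -/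
def cadj (a b c d : ℕ) : Prop := (a = c ∧ b ≠ d ∧ (a = b ∨ c = d)) ∨ (a ≠ b ∧ c = b ∧ d = a)

/-- distance in the subdivided complete graph -/
def cdist (a b c d : ℕ) : ℕ :=
  if a = c then (if b = d then 0 else (if a = b then 0 else 1) + (if c = d then 0 else 1))
  else if b = c then (if d = a then 1 else 2 + (if c = d then 0 else 1))
  else if d = a then 2 + (if a = b then 0 else 1)
  else if b = d then 4
  else 3 + (if a = b then 0 else 1) + (if c = d then 0 else 1)

/-- the next vertex on the shortest path from `(a, b)` to `(c, d)`, first coordinate -/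
def nx1 (a b c d : ℕ) : ℕ :=
  if a = b then a
  else if a = c then a
  else if b = c then b
  else if d ≠ a ∧ b = d then b
  else a

/-- the next vertex on the shortest path from `(a, b)` to `(c, d)`, second coordinate -/
def nx2 (a b c d : ℕ) : ℕ :=
  if a = b then (if a = c then d else c)
  else a

theorem cdist_le (a b c d : ℕ) : cdist a b c d ≤ 5 := by
  unfold cdist
  split_ifs <;> omega

theorem cdist_self (a b : ℕ) : cdist a b a b = 0 := by
  simp [cdist]

theorem cdist_lip {a b c d : ℕ} (k l : ℕ) (h : cadj a b c d) :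
    cdist a b k l ≤ cdist c d k l + 1 := by
  unfold cadj at h
  unfold cdist
  split_ifs <;> omega

theorem cdist_pos {a b c d : ℕ} (h : ¬ (a = c ∧ b = d)) : 0 < cdist a b c d := by
  unfold cdist
  split_ifs <;> omega

theorem nx_adj {a b k l : ℕ} (h : ¬ (a = k ∧ b = l)) :
    cadj a b (nx1 a b k l) (nx2 a b k l) := by
  unfold cadj nx1 nx2
  split_ifs <;> omega

theorem nx_dist {a b k l : ℕ} (h : ¬ (a = k ∧ b = l)) :
    cdist (nx1 a b k l) (nx2 a b k l) k l + 1 = cdist a b k l := by
  unfold cdist nx1 nx2
  split_ifs <;> omega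

theorem nx_unique {a b c d k l : ℕ} (h : ¬ (a = k ∧ b = l)) (h1 : cadj a b c d)
    (h2 : cdist c d k l + 1 = cdist a b k l) : c = nx1 a b k l ∧ d = nx2 a b k l := by
  unfold cadj at h1
  unfold nx1 nx2
  unfold cdist at h2
  split_ifs at h2 ⊢ <;> omega

theorem nx1_mem (a b k l : ℕ) : nx1 a b k l = a ∨ nx1 a b k l = b := by
  unfold nx1
  split_ifs <;> simp

theorem nx2_mem (a b k l : ℕ) : nx2 a b k l = a ∨ nx2 a b k l = k ∨ nx2 a b k l = l := by
  unfold nx2
  split_ifs <;> simp

end Pool.Agent.T2h8.GEO
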