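import Mathlib

/-!
# Geodetic graphs

A graph is geodetic if it is connected and every two vertices are joined by exactly one shortest
path.  A criterion: a function `D` which decreases by one along exactly one edge at every vertex
different from the target.
-/

set_option autoImplicit false

namespace Pool.Agent.T2h8.GEO

/-- A graph is geodetic if it is connected and every two vertices `u`, `v` are joined by exactly
one path of length `dist u v`. -/
def IsGeodetic {V : Type*} (G : SimpleGraph V) : Prop :=
  G.Connected ∧ ∀ u v : V, ∃! p : G.Path u v, (p : G.Walk u v).length = G.dist u v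

/-- A certificate for a geodetic graph with diameter at most `b`: `D` is the distance, and at every
vertex different from `v` there is exactly one edge along which the distance to `v` decreases. -/
structure Cert {V : Type*} (G : SimpleGraph V) (D : V → V → ℕ) : Prop where
  self : ∀ v, D v v = 0
  adj : ∀ u w v, G.Adj u w → D u v ≤ D w v + 1
  next : ∀ u v, u ≠ v → ∃ w, G.Adj u w ∧ D w v + 1 = D u v ∧
    ∀ w', G.Adj u w' → D w' v + 1 = D u v → w' = w

namespace Cert

variable {V : Type*} {G : SimpleGraph V} {D : V → V → ℕ}

theorem le_length (h : Cert G D) : ∀ {u v : V} (p : G.Walk u v), D u v ≤ p.length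
  | _, _, .nil => (h.self _).le
  | u, v, .cons (v := w) e p => (h.adj u w v e).trans (by
      rw [SimpleGraph.Walk.length_cons]; exact Nat.succ_le_succ (le_length h p))

theorem exists_walk (h : Cert G D) : ∀ (k : ℕ) (u v : V), D u v = k →
    ∃ p : G.Walk u v, p.length = k := by
  intro k
  induction k with
  | zero =>
    intro u v hk
    by_cases huv : u = v
    · subst huv
      exact ⟨.nil, rfl⟩
    · obtain ⟨w, _, h2, _⟩ := h.next u v huv
      omega
  | succ k ih =>
    intro u v hk
    have huv : u ≠ v := by
      rintro rfl
      rw [h.self] at hk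
      omega
    obtain ⟨w, h1, h2, _⟩ := h.next u v huv
    obtain ⟨p, hp⟩ := ih w v (by omega)
    exact ⟨.cons h1 p, by rw [SimpleGraph.Walk.length_cons, hp]⟩

theorem walk_unique (h : Cert G D) {u v : V} (p : G.Walk u v) : ∀ q : G.Walk u v,
    p.length = D u v → q.length = D u v → p = q := by
  induction p with
  | nil =>
    intro q _ hq
    rw [h.self] at hq
    cases q with
    | nil => rfl
    | cons _ _ => simp at hq
  | @cons u w v e p ih =>
    intro q hp hq
    cases q with
    | nil =>
      rw [h.self] at hp
      simp at hp
    | @cons _ w' _ e' q =>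
      rw [SimpleGraph.Walk.length_cons] at hp hq
      have h1 := le_length h p
      have h2 := le_length h q
      have h3 := h.adj u w v e
      have h4 := h.adj u w' v e'
      have huv : u ≠ v := by
        rintro rfl
        rw [h.self] at hp
        omega
      obtain ⟨x, _, _, hx⟩ := h.next u v huv
      have h5 : w = x := hx w e (by omega)
      have h6 : w' = x := hx w' e' (by omega)
      subst h5
      subst h6
      rw [ih q (by omega) (by omega)]

theorem connected [Nonempty V] (h : Cert G D) : G.Connected := by
  rw [SimpleGraph.connected_iff]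
  refine ⟨fun u v => ?_, inferInstance⟩
  obtain ⟨p, _⟩ := exists_walk h _ u v rfl
  exact ⟨p⟩

theorem dist_eq [Nonempty V] (h : Cert G D) (u v : V) : G.dist u v = D u v := by
  obtain ⟨p, hp⟩ := exists_walk h _ u v rfl
  obtain ⟨q, hq⟩ := (connected h).exists_walk_length_eq_dist u v
  apply le_antisymm
  · rw [← hp]
    exact SimpleGraph.dist_le p
  · rw [← hq]
    exact le_length h q

theorem geodetic [Nonempty V] (h : Cert G D) : IsGeodetic G := by
  refine ⟨connected h, fun u v => ?_⟩
  obtain ⟨p, hp, hp'⟩ := (connected h).exists_path_of_dist u v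
  refine ⟨⟨p, hp⟩, hp', ?_⟩
  rintro ⟨q, hq⟩ hq'
  apply Subtype.ext
  show q = p
  have hq'' : q.length = G.dist u v := hq'
  exact walk_unique h q p (by rw [hq'', dist_eq h]) (by rw [hp', dist_eq h])

theorem comap {W : Type*} {H : SimpleGraph W} (h : Cert G D) (φ : H ≃g G) :
    Cert H (fun x y => D (φ x) (φ y)) where
  self v := h.self _
  adj u w v e := h.adj _ _ _ (φ.map_adj_iff.2 e)
  next u v huv := by
    obtain ⟨w, h1, h2, h3⟩ := h.next (φ u) (φ v) (fun h => huv (φ.injective h))
    refine ⟨φ.symm w, ?_, ?_, ?_⟩
    · rw [← φ.map_adj_iff, φ.apply_symm_apply]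
      exact h1
    · show D (φ (φ.symm w)) (φ v) + 1 = _
      rw [φ.apply_symm_apply]
      exact h2
    · intro w' h4 h5
      rw [← h3 (φ w') (φ.map_adj_iff.2 h4) h5, φ.symm_apply_apply]

end Cert

end Pool.Agent.T2h8.GEO
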