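import Pool.Agent.T2h8.GEO.Core

/-!
# The graph, and its distances
-/

set_option autoImplicit false

namespace Pool.Agent.T2h8.GEO

/-- labels of vertices -/
abbrev Lb := ℕ × ℕ × ℕ

/-- adjacency of labels -/
def ladj (u v : Lb) : Prop :=
  (u.1 = v.1 ∧ u.2.1 = v.2.1 ∧ u.2.2 ≠ v.2.2 ∧ (u.2.2 = 0 ∨ v.2.2 = 0)) ∨
  (u.2.2 = 0 ∧ v.2.2 = 0 ∧ cadj u.1 u.2.1 v.1 v.2.1)

/-- distance of labels -/
def ldist (u v : Lb) : ℕ :=
  if u.1 = v.1 ∧ u.2.1 = v.2.1 then
    (if u.2.2 = v.2.2 then 0 else if u.2.2 = 0 ∨ v.2.2 = 0 then 1 else 2)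
  else (if u.2.2 = 0 then 0 else 1) + cdist u.1 u.2.1 v.1 v.2.1 + (if v.2.2 = 0 then 0 else 1)

/-- the labels of the vertices: `E` is the adjacency relation of the given graph on
`{0, …, n - 1}` -/
def good (n : ℕ) (E : ℕ → ℕ → Prop) (z : Lb) : Prop :=
  z.1 < n ∧ z.2.1 < n ∧ (z.2.2 = 0 ∨ (z.2.2 = 1 ∧ (z.1 = z.2.1 ∨ E z.1 z.2.1)) ∨
    (z.2.2 = 2 ∧ z.1 = z.2.1))

theorem ladj_symm {u v : Lb} (h : ladj u v) : ladj v u := by
  unfold ladj cadj at *
  omega

theorem ladj_irrefl (u : Lb) : ¬ ladj u u := by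
  unfold ladj cadj
  omega

/-- the graph -/
def GG (n : ℕ) (E : ℕ → ℕ → Prop) : SimpleGraph {z : Lb // good n E z} where
  Adj u v := ladj u.1 v.1
  symm := ⟨fun _ _ h => ladj_symm h⟩
  loopless := ⟨fun u h => ladj_irrefl u.1 h⟩

theorem ldist_le (u v : Lb) : ldist u v ≤ 7 := by
  have := cdist_le u.1 u.2.1 v.1 v.2.1
  unfold ldist
  split_ifs <;> omega

theorem ldist_self (u : Lb) : ldist u u = 0 := by
  simp [ldist]

theorem ldist_lip {u w : Lb} (v : Lb) (h : ladj u w) : ldist u v ≤ ldist w v + 1 := by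
  obtain ⟨a, b, s⟩ := u
  obtain ⟨c, d, t⟩ := w
  obtain ⟨k, l, r⟩ := v
  rcases h with ⟨h1, h2, h3, h4⟩ | ⟨h1, h2, h3⟩
  · simp only at h1 h2 h3 h4
    subst h1
    subst h2
    unfold ldist
    simp only
    split_ifs <;> omega
  · simp only at h1 h2 h3
    subst h1
    subst h2
    have h5 := cdist_lip k l h3
    unfold ldist
    simp only
    split_ifs with h6 h7 h8 h9 h10 h11 h12 h13 h14 h15 h16 <;> try omega
    all_goals
      obtain ⟨rfl, rfl⟩ := (by assumption : c = k ∧ d = l)
      rw [cdist_self] at h5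
      omega

theorem next_of (n : ℕ) (E : ℕ → ℕ → Prop) {u v : Lb} (hu : good n E u) (hv : good n E v)
    (huv : u ≠ v) : ∃ w, good n E w ∧ ladj u w ∧ ldist w v + 1 = ldist u v ∧
      ∀ w', good n E w' → ladj u w' → ldist w' v + 1 = ldist u v → w' = w := by
  obtain ⟨a, b, s⟩ := u
  obtain ⟨k, l, r⟩ := v
  obtain ⟨hu1, hu2, hu3⟩ := hu
  obtain ⟨hv1, hv2, hv3⟩ := hv
  simp only at hu1 hu2 hu3 hv1 hv2 hv3
  by_cases hs : s = 0
  · subst hs
    by_cases hp : a = k ∧ b = l
    · obtain ⟨rfl, rfl⟩ := hp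
      have hr : r ≠ 0 := by
        rintro rfl
        exact huv rfl
      refine ⟨(a, b, r), ⟨hu1, hu2, hv3⟩, Or.inl ⟨rfl, rfl, fun h => hr h.symm, Or.inl rfl⟩, ?_, ?_⟩
      · simp [ldist, hr]
        omega
      · rintro ⟨c, d, t⟩ - h1 h2
        have h3 : ldist (a, b, 0) (a, b, r) = 1 := by
          simp [ldist]
          omega
        rw [h3] at h2
        have h4 : ldist (c, d, t) (a, b, r) = 0 := by omega
        unfold ldist at h4
        simp only at h4
        split_ifs at h4 with h5 h6 h7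
        · obtain ⟨rfl, rfl⟩ := h5
          rw [h6]
    · refine ⟨(nx1 a b k l, nx2 a b k l, 0), ?_, ?_, ?_, ?_⟩
      · refine ⟨?_, ?_, Or.inl rfl⟩
        · show nx1 a b k l < n
          rcases nx1_mem a b k l with h | h <;> rw [h] <;> assumption
        · show nx2 a b k l < n
          rcases nx2_mem a b k l with h | h | h <;> rw [h] <;> assumption
      · exact Or.inr ⟨rfl, rfl, nx_adj hp⟩
      · have h1 := nx_dist hp
        unfold ldist
        simp only
        rw [if_neg hp]
        by_cases hq : nx1 a b k l = k ∧ nx2 a b k l = l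
        · rw [if_pos hq]
          rw [hq.1, hq.2, cdist_self] at h1
          simp only [if_true, true_or]
          split_ifs <;> omega
        · rw [if_neg hq]
          simp only [if_true, true_or]
          split_ifs <;> omega
      · rintro ⟨c, d, t⟩ - h1 h2
        rcases h1 with ⟨h3, h4, h5, h6⟩ | ⟨h3, h4, h5⟩
        · simp only at h3 h4 h5 h6
          subst h3
          subst h4
          exfalso
          unfold ldist at h2
          simp only at h2
          rw [if_neg hp, if_neg hp] at h2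
          simp only [if_true] at h2
          split_ifs at h2 <;> omega
        · simp only at h3 h4 h5
          subst h4
          have h6 : cdist c d k l + 1 = cdist a b k l := by
            unfold ldist at h2
            simp only at h2
            rw [if_neg hp] at h2
            by_cases hq : c = k ∧ d = l
            · rw [if_pos hq] at h2
              rw [hq.1, hq.2, cdist_self]
              simp only [if_true, true_or] at h2
              split_ifs at h2 <;> omega
            · rw [if_neg hq] at h2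
              simp only [if_true, true_or] at h2
              split_ifs at h2 <;> omega
          obtain ⟨h7, h8⟩ := nx_unique hp h5 h6
          rw [h7, h8]
  · refine ⟨(a, b, 0), ⟨hu1, hu2, Or.inl rfl⟩, Or.inl ⟨rfl, rfl, hs, Or.inr rfl⟩, ?_, ?_⟩
    · unfold ldist
      simp only
      have hne : ¬ ((a = k ∧ b = l) ∧ s = r) := by
        rintro ⟨⟨rfl, rfl⟩, rfl⟩
        exact huv rfl
      simp only [true_or, if_true]
      split_ifs <;> omega
    · rintro ⟨c, d, t⟩ - h1 -
      rcases h1 with ⟨h3, h4, h5, h6⟩ | ⟨h3, h4, h5⟩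
      · simp only at h3 h4 h5 h6
        have h7 : t = 0 := by
          rcases h6 with h6 | h6
          · exact absurd h6 hs
          · exact h6
        rw [h3, h4, h7]
      · exact absurd h3 hs

theorem cert_GG (n : ℕ) (E : ℕ → ℕ → Prop) : Cert (GG n E) (fun u v => ldist u.1 v.1) where
  self v := ldist_self v.1
  adj u w v h := ldist_lip v.1 h
  next u v huv := by
    obtain ⟨w, h1, h2, h3, h4⟩ := next_of n E u.2 v.2 (fun h => huv (Subtype.ext h))
    exact ⟨⟨w, h1⟩, h2, h3, fun w' h5 h6 => Subtype.ext (h4 w'.1 w'.2 h5 h6)⟩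

end Pool.Agent.T2h8.GEO
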