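import Pool.Agent.T2h8.GEO.Graph

/-!
# The construction and isomorphism
-/

set_option autoImplicit false

namespace Pool.Agent.T2h8.GEO

/-- the adjacency relation of a graph on `{0, …, n - 1}`, as a relation of natural numbers -/
def EX {n : ℕ} (X : SimpleGraph (Fin n)) (i j : ℕ) : Prop :=
  ∃ (hi : i < n) (hj : j < n), X.Adj ⟨i, hi⟩ ⟨j, hj⟩

theorem EX_fin {n : ℕ} (X : SimpleGraph (Fin n)) (i j : Fin n) : EX X i j ↔ X.Adj i j :=
  ⟨fun ⟨_, _, h⟩ => h, fun h => ⟨i.2, j.2, h⟩⟩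

theorem ladj_map {s : ℕ → ℕ} (hs : Function.Injective s) (u v : Lb) :
    ladj (s u.1, s u.2.1, u.2.2) (s v.1, s v.2.1, v.2.2) ↔ ladj u v := by
  unfold ladj cadj
  simp only [hs.eq_iff, ne_eq]

/-- the permutation of the natural numbers extending a permutation of `Fin n` -/
noncomputable def ext {n : ℕ} (σ : Equiv.Perm (Fin n)) : Equiv.Perm ℕ :=
  σ.extendDomain Fin.equivSubtype

theorem ext_fin {n : ℕ} (σ : Equiv.Perm (Fin n)) (i : Fin n) : ext σ i = σ i :=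
  Equiv.Perm.extendDomain_apply_image σ Fin.equivSubtype i

theorem ext_lt {n : ℕ} (σ : Equiv.Perm (Fin n)) (i : ℕ) : ext σ i < n ↔ i < n := by
  by_cases h : i < n
  · have h1 := ext_fin σ ⟨i, h⟩
    rw [show ((⟨i, h⟩ : Fin n) : ℕ) = i from rfl] at h1
    rw [h1]
    exact ⟨fun _ => h, fun _ => (σ ⟨i, h⟩).2⟩
  · have h1 : ext σ i = i := Equiv.Perm.extendDomain_apply_not_subtype σ Fin.equivSubtype h
    rw [h1]

/-- An isomorphism of graphs gives an isomorphism of the constructions. -/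
theorem iso_of {n : ℕ} {X Y : SimpleGraph (Fin n)} (φ : X ≃g Y) :
    Nonempty (GG n (EX X) ≃g GG n (EX Y)) := by
  have hinj : Function.Injective (ext φ.toEquiv) := (ext φ.toEquiv).injective
  have hE : ∀ i j : ℕ, EX X i j ↔ EX Y (ext φ.toEquiv i) (ext φ.toEquiv j) := by
    intro i j
    by_cases hi : i < n
    · by_cases hj : j < n
      · have h1 := ext_fin φ.toEquiv ⟨i, hi⟩
        have h2 := ext_fin φ.toEquiv ⟨j, hj⟩
        rw [show ((⟨i, hi⟩ : Fin n) : ℕ) = i from rfl] at h1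
        rw [show ((⟨j, hj⟩ : Fin n) : ℕ) = j from rfl] at h2
        rw [h1, h2, EX_fin]
        have h3 := EX_fin X ⟨i, hi⟩ ⟨j, hj⟩
        rw [h3]
        exact φ.map_adj_iff.symm
      · constructor
        · rintro ⟨_, h, _⟩
          exact absurd h hj
        · rintro ⟨_, h, _⟩
          rw [ext_lt] at h
          exact absurd h hj
    · constructor
      · rintro ⟨h, _, _⟩
        exact absurd h hi
      · rintro ⟨h, _, _⟩
        rw [ext_lt] at h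
        exact absurd h hi
  let e : Lb ≃ Lb := Equiv.prodCongr (ext φ.toEquiv) (Equiv.prodCongr (ext φ.toEquiv)
    (Equiv.refl ℕ))
  have he : ∀ z : Lb, good n (EX X) z ↔ good n (EX Y) (e z) := by
    rintro ⟨i, j, t⟩
    show _ ↔ good n (EX Y) (ext φ.toEquiv i, ext φ.toEquiv j, t)
    unfold good
    simp only [ext_lt, hE i j, hinj.eq_iff]
  refine ⟨⟨e.subtypeEquiv he, ?_⟩⟩
  intro u v
  show ladj (ext φ.toEquiv u.1.1, ext φ.toEquiv u.1.2.1, u.1.2.2)
    (ext φ.toEquiv v.1.1, ext φ.toEquiv v.1.2.1, v.1.2.2) ↔ ladj u.1 v.1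
  exact ladj_map hinj _ _

/-- a vertex with exactly one neighbour -/
def Leaf {V : Type*} (G : SimpleGraph V) (w : V) : Prop := ∃ v, ∀ u, G.Adj w u ↔ u = v

theorem Leaf.map {V W : Type*} {G : SimpleGraph V} {H : SimpleGraph W} (φ : G ≃g H) {w : V} :
    Leaf H (φ w) ↔ Leaf G w := by
  constructor
  · rintro ⟨v, hv⟩
    refine ⟨φ.symm v, fun u => ?_⟩
    rw [← φ.map_adj_iff, hv]
    constructor
    · rintro rfl
      rw [φ.symm_apply_apply]
    · rintro rfl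
      rw [φ.apply_symm_apply]
  · rintro ⟨v, hv⟩
    refine ⟨φ v, fun u => ?_⟩
    obtain ⟨u, rfl⟩ := φ.surjective u
    rw [φ.map_adj_iff, hv, φ.injective.eq_iff]

/-- a vertex with two neighbours with exactly one neighbour -/
def Cen {V : Type*} (G : SimpleGraph V) (v : V) : Prop :=
  ∃ w w', w ≠ w' ∧ G.Adj v w ∧ G.Adj v w' ∧ Leaf G w ∧ Leaf G w'

theorem Cen.map {V W : Type*} {G : SimpleGraph V} {H : SimpleGraph W} (φ : G ≃g H) {v : V} :
    Cen H (φ v) ↔ Cen G v := by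
  constructor
  · rintro ⟨w, w', h1, h2, h3, h4, h5⟩
    obtain ⟨w, rfl⟩ := φ.surjective w
    obtain ⟨w', rfl⟩ := φ.surjective w'
    exact ⟨w, w', fun h => h1 (by rw [h]), φ.map_adj_iff.1 h2, φ.map_adj_iff.1 h3,
      (Leaf.map φ).1 h4, (Leaf.map φ).1 h5⟩
  · rintro ⟨w, w', h1, h2, h3, h4, h5⟩
    exact ⟨φ w, φ w', fun h => h1 (φ.injective h), φ.map_adj_iff.2 h2, φ.map_adj_iff.2 h3,
      (Leaf.map φ).2 h4, (Leaf.map φ).2 h5⟩

/-- a vertex with a neighbour with exactly one neighbour -/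
def HasLeaf {V : Type*} (G : SimpleGraph V) (v : V) : Prop := ∃ w, G.Adj v w ∧ Leaf G w

theorem HasLeaf.map {V W : Type*} {G : SimpleGraph V} {H : SimpleGraph W} (φ : G ≃g H) {v : V} :
    HasLeaf H (φ v) ↔ HasLeaf G v := by
  constructor
  · rintro ⟨w, h1, h2⟩
    obtain ⟨w, rfl⟩ := φ.surjective w
    exact ⟨w, φ.map_adj_iff.1 h1, (Leaf.map φ).1 h2⟩
  · rintro ⟨w, h1, h2⟩
    exact ⟨φ w, φ.map_adj_iff.2 h1, (Leaf.map φ).2 h2⟩

section

variable {n : ℕ} {E : ℕ → ℕ → Prop}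

theorem leaf_iff (w : {z : Lb // good n E z}) : Leaf (GG n E) w ↔ w.1.2.2 ≠ 0 := by
  obtain ⟨⟨i, j, t⟩, hi, hj, ht⟩ := w
  simp only at hi hj ht
  constructor
  · rintro ⟨v, hv⟩ h0
    simp only at h0
    subst h0
    by_cases hij : i = j
    · subst hij
      have h1 : (⟨(i, i, 1), hi, hi, Or.inr (Or.inl ⟨rfl, Or.inl rfl⟩)⟩ :
          {z : Lb // good n E z}) = v := (hv _).1 (Or.inl ⟨rfl, rfl, by simp, Or.inl rfl⟩)
      have h2 : (⟨(i, i, 2), hi, hi, Or.inr (Or.inr ⟨rfl, rfl⟩)⟩ :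
          {z : Lb // good n E z}) = v := (hv _).1 (Or.inl ⟨rfl, rfl, by simp, Or.inl rfl⟩)
      have h3 := congrArg (fun z : {z : Lb // good n E z} => z.1.2.2) (h1.trans h2.symm)
      simp at h3
    · have h1 : (⟨(i, i, 0), hi, hi, Or.inl rfl⟩ : {z : Lb // good n E z}) = v :=
        (hv _).1 (Or.inr ⟨rfl, rfl, Or.inl ⟨rfl, fun h => hij h.symm, Or.inr rfl⟩⟩)
      have h2 : (⟨(j, i, 0), hj, hi, Or.inl rfl⟩ : {z : Lb // good n E z}) = v :=
        (hv _).1 (Or.inr ⟨rfl, rfl, Or.inr ⟨hij, rfl, rfl⟩⟩)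
      have h3 := congrArg (fun z : {z : Lb // good n E z} => z.1.1) (h1.trans h2.symm)
      exact hij h3
  · intro h0
    simp only at h0
    refine ⟨⟨(i, j, 0), hi, hj, Or.inl rfl⟩, ?_⟩
    rintro ⟨⟨k, l, r⟩, hk, hl, hr⟩
    constructor
    · intro h
      apply Subtype.ext
      rcases h with ⟨h1, h2, h3, h4⟩ | ⟨h1, h2, h3⟩
      · simp only at h1 h2 h3 h4
        have h5 : r = 0 := by omega
        show ((k, l, r) : Lb) = (i, j, 0)
        rw [h1, h2, h5]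
      · exact absurd h1 h0
    · intro h
      have h1 := congrArg Subtype.val h
      simp only [Prod.mk.injEq] at h1
      obtain ⟨h1, h2, h3⟩ := h1
      subst h1
      subst h2
      subst h3
      exact Or.inl ⟨rfl, rfl, h0, Or.inr rfl⟩

theorem cen_iff (v : {z : Lb // good n E z}) : Cen (GG n E) v ↔ v.1.2.2 = 0 ∧ v.1.1 = v.1.2.1 := by
  obtain ⟨⟨i, j, t⟩, hi, hj, ht⟩ := v
  simp only at hi hj ht
  constructor
  · rintro ⟨⟨⟨a, b, s⟩, ha, hb, hs⟩, ⟨⟨a', b', s'⟩, ha', hb', hs'⟩, h1, h2, h3, h4, h5⟩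
    rw [leaf_iff] at h4 h5
    simp only at h4 h5 hs hs'
    rcases h2 with ⟨e1, e2, e3, e4⟩ | ⟨e1, e2, e3⟩
    · rcases h3 with ⟨f1, f2, f3, f4⟩ | ⟨f1, f2, f3⟩
      · simp only at e1 e2 e3 e4 f1 f2 f3 f4
        subst e1
        subst e2
        subst f1
        subst f2
        have h6 : s ≠ s' := by
          rintro rfl
          exact h1 rfl
        refine ⟨?_, ?_⟩
        · show t = 0
          omega
        · show i = j
          rcases hs with hs | ⟨hs, _⟩ | ⟨hs, hs2⟩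
          · exact absurd hs h4
          · rcases hs' with hs' | ⟨hs', _⟩ | ⟨hs', hs2'⟩
            · exact absurd hs' h5
            · exact absurd (hs.trans hs'.symm) h6
            · exact hs2'
          · exact hs2
      · exact absurd f2 h5
    · exact absurd e2 h4
  · rintro ⟨h1, h2⟩
    simp only at h1 h2
    subst h1
    subst h2
    refine ⟨⟨(i, i, 1), hi, hi, Or.inr (Or.inl ⟨rfl, Or.inl rfl⟩)⟩,
      ⟨(i, i, 2), hi, hi, Or.inr (Or.inr ⟨rfl, rfl⟩)⟩, ?_, ?_, ?_, ?_, ?_⟩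
    · intro h
      have h3 := congrArg (fun z : {z : Lb // good n E z} => z.1.2.2) h
      simp at h3
    · exact Or.inl ⟨rfl, rfl, by simp, Or.inl rfl⟩
    · exact Or.inl ⟨rfl, rfl, by simp, Or.inl rfl⟩
    · rw [leaf_iff]
      simp
    · rw [leaf_iff]
      simp

theorem hasLeaf_iff {i j : ℕ} (hij : i ≠ j) (h : good n E (i, j, 0)) :
    HasLeaf (GG n E) ⟨(i, j, 0), h⟩ ↔ E i j := by
  constructor
  · rintro ⟨⟨⟨a, b, s⟩, ha, hb, hs⟩, h2, h4⟩
    rw [leaf_iff] at h4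
    simp only at h4 hs
    rcases h2 with ⟨e1, e2, e3, e4⟩ | ⟨e1, e2, e3⟩
    · simp only at e1 e2
      subst e1
      subst e2
      rcases hs with hs | ⟨hs, hs2⟩ | ⟨hs, hs2⟩
      · exact absurd hs h4
      · rcases hs2 with hs2 | hs2
        · exact absurd hs2 hij
        · exact hs2
      · exact absurd hs2 hij
    · exact absurd e2 h4
  · intro hE
    refine ⟨⟨(i, j, 1), h.1, h.2.1, Or.inr (Or.inl ⟨rfl, Or.inr hE⟩)⟩, ?_, ?_⟩
    · exact Or.inl ⟨rfl, rfl, by simp, Or.inl rfl⟩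
    · rw [leaf_iff]
      simp

end

/-- the vertex `(i, j, 0)` -/
def vv {n : ℕ} (E : ℕ → ℕ → Prop) (i j : Fin n) : {z : Lb // good n E z} :=
  ⟨(i, j, 0), i.2, j.2, Or.inl rfl⟩

/-- An isomorphism of the constructions gives an isomorphism of the graphs. -/
theorem of_iso {n : ℕ} {X Y : SimpleGraph (Fin n)} (φ : GG n (EX X) ≃g GG n (EX Y)) :
    Nonempty (X ≃g Y) := by
  have h1 : ∀ i : Fin n, ∃ k : Fin n, φ (vv (EX X) i i) = vv (EX Y) k k := by
    intro i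
    have h2 : Cen (GG n (EX Y)) (φ (vv (EX X) i i)) :=
      (Cen.map φ).2 ((cen_iff _).2 ⟨rfl, rfl⟩)
    rw [cen_iff] at h2
    rcases hz : φ (vv (EX X) i i) with ⟨⟨k, l, r⟩, hk, hl, hr⟩
    rw [hz] at h2
    simp only at h2
    obtain ⟨rfl, rfl⟩ := h2
    exact ⟨⟨k, hk⟩, rfl⟩
  choose σ hσ using h1
  have hinj : Function.Injective σ := by
    intro i j hij
    have h2 : φ (vv (EX X) i i) = φ (vv (EX X) j j) := by rw [hσ, hσ, hij]
    have h3 := congrArg (fun z : {z : Lb // good n (EX X) z} => z.1.1) (φ.injective h2)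
    exact Fin.ext h3
  have h2 : ∀ i j : Fin n, i ≠ j → ∃ q : Fin n, σ i ≠ q ∧
      φ (vv (EX X) i j) = vv (EX Y) (σ i) q := by
    intro i j hij
    have hij' : (i : ℕ) ≠ j := fun h => hij (Fin.ext h)
    have h3 : (GG n (EX X)).Adj (vv (EX X) i i) (vv (EX X) i j) :=
      Or.inr ⟨rfl, rfl, Or.inl ⟨rfl, hij', Or.inl rfl⟩⟩
    have h4 := φ.map_adj_iff.2 h3
    rw [hσ] at h4
    have h5 : ¬ Leaf (GG n (EX Y)) (φ (vv (EX X) i j)) := by
      rw [Leaf.map φ, leaf_iff]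
      exact fun h => h rfl
    rw [leaf_iff] at h5
    rcases hz : φ (vv (EX X) i j) with ⟨⟨k, l, r⟩, hk, hl, hr⟩
    rw [hz] at h4 h5
    simp only [ne_eq, not_not] at h5
    subst h5
    rcases h4 with ⟨e1, e2, e3, e4⟩ | ⟨e1, e2, e3⟩
    · exact absurd rfl e3
    · rcases e3 with ⟨f1, f2, f3⟩ | ⟨f1, _, _⟩
      · have f1' : ((σ i : Fin n) : ℕ) = k := f1
        subst f1'
        exact ⟨⟨l, hl⟩, fun h => f2 (by
          show ((σ i : Fin n) : ℕ) = l
          rw [h]), rfl⟩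
      · exact absurd rfl f1
  have h3 : ∀ i j : Fin n, i ≠ j → φ (vv (EX X) i j) = vv (EX Y) (σ i) (σ j) := by
    intro i j hij
    have hij' : (i : ℕ) ≠ j := fun h => hij (Fin.ext h)
    obtain ⟨q, hq1, hq2⟩ := h2 i j hij
    obtain ⟨q', hq1', hq2'⟩ := h2 j i (Ne.symm hij)
    have h4 : (GG n (EX X)).Adj (vv (EX X) i j) (vv (EX X) j i) :=
      Or.inr ⟨rfl, rfl, Or.inr ⟨hij', rfl, rfl⟩⟩
    have h5 := φ.map_adj_iff.2 h4
    rw [hq2, hq2'] at h5
    have h6 : σ i ≠ σ j := fun h => hij (hinj h)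
    have h6' : ((σ i : Fin n) : ℕ) ≠ σ j := fun h => h6 (Fin.ext h)
    rcases h5 with ⟨e1, _, _, _⟩ | ⟨_, _, e3⟩
    · exact absurd e1 h6'
    · rcases e3 with ⟨f1, _, _⟩ | ⟨_, f2, _⟩
      · exact absurd f1 h6'
      · have f2' : σ j = q := Fin.ext f2
        rw [hq2, f2']
  have hbij : Function.Bijective σ := Finite.injective_iff_bijective.1 hinj
  refine ⟨⟨Equiv.ofBijective σ hbij, ?_⟩⟩
  intro i j
  show Y.Adj (σ i) (σ j) ↔ X.Adj i j
  by_cases hij : i = j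
  · subst hij
    simp
  · have hij' : (i : ℕ) ≠ j := fun h => hij (Fin.ext h)
    have h6' : ((σ i : Fin n) : ℕ) ≠ σ j := fun h => hij (hinj (Fin.ext h))
    rw [← EX_fin, ← EX_fin, ← hasLeaf_iff hij' (vv (EX X) i j).2,
      ← hasLeaf_iff h6' (vv (EX Y) (σ i) (σ j)).2]
    have h7 : HasLeaf (GG n (EX Y)) (φ (vv (EX X) i j)) ↔ HasLeaf (GG n (EX X)) (vv (EX X) i j) :=
      HasLeaf.map φ
    rw [h3 i j hij] at h7
    exact h7

theorem iso_iff {n : ℕ} (X Y : SimpleGraph (Fin n)) :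
    Nonempty (X ≃g Y) ↔ Nonempty (GG n (EX X) ≃g GG n (EX Y)) :=
  ⟨fun ⟨φ⟩ => iso_of φ, fun ⟨φ⟩ => of_iso φ⟩

end Pool.Agent.T2h8.GEO
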