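import Pool.Agent.T2h8.GEO.Iso
import Pool.Agent.H671R2.PolyAuto
import Pool.Agent.H671R2.GraphEnc
import Pool.Agent.NPC.Dec
import Pool.Agent.H642R2.TMSim

/-!
# The reduction, and its computation in polynomial time
-/

set_option autoImplicit false

namespace Pool.Agent.T2h8.GEO

open Pool.Agent.NPC Pool.Agent.NPC.R671

/-- The graph isomorphism problem: the input consists of the adjacency matrices of two finite
graphs, and the question is whether the graphs are isomorphic. -/
def GraphIso (p : List (List Bool) × List (List Bool)) : Prop :=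
  ∃ (n m : ℕ) (X : SimpleGraph (Fin n)) (Y : SimpleGraph (Fin m)),
    adjMatrix X = p.1 ∧ adjMatrix Y = p.2 ∧ Nonempty (X ≃g Y)

/-- The yes-instances of the isomorphism problem for geodetic graphs: pairs of adjacency matrices
of isomorphic geodetic graphs. -/
def GeodeticIso (p : List (List Bool) × List (List Bool)) : Prop :=
  ∃ (n m : ℕ) (X : SimpleGraph (Fin n)) (Y : SimpleGraph (Fin m)),
    adjMatrix X = p.1 ∧ adjMatrix Y = p.2 ∧ IsGeodetic X ∧ IsGeodetic Y ∧ Nonempty (X ≃g Y)

/-- geodetic, and every two vertices at distance at most seven -/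
def Geo7 {V : Type*} (G : SimpleGraph V) : Prop := IsGeodetic G ∧ ∀ u v, G.dist u v ≤ 7

theorem Cert.geo7 {V : Type*} [Nonempty V] {G : SimpleGraph V} {D : V → V → ℕ} (h : Cert G D)
    (hD : ∀ u v, D u v ≤ 7) : Geo7 G :=
  ⟨h.geodetic, fun u v => by rw [h.dist_eq]; exact hD u v⟩

/-- entries of a matrix -/
def ent (M : List (List Bool)) (i j : ℕ) : Bool := (M.getD i []).getD j false

/-- the labels of the vertices -/
def goodB (M : List (List Bool)) (z : Lb) : Bool :=
  decide (z.2.2 = 0) || ((decide (z.2.2 = 1) && (decide (z.1 = z.2.1) || ent M z.1 z.2.1)) ||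
    (decide (z.2.2 = 2) && decide (z.1 = z.2.1)))

/-- the list of the vertices -/
def verts (M : List (List Bool)) : List Lb :=
  (List.range M.length ×ˢ (List.range M.length ×ˢ List.range 3)).filter (fun z => goodB M z)

/-- adjacency in the subdivided complete graph -/
def cadB (a b c d : ℕ) : Bool :=
  (decide (a = c) && (!(decide (b = d)) && (decide (a = b) || decide (c = d)))) ||
    (!(decide (a = b)) && (decide (c = b) && decide (d = a)))

/-- adjacency -/
def adB (u v : Lb) : Bool :=
  (decide (u.1 = v.1) && (decide (u.2.1 = v.2.1) && (!(decide (u.2.2 = v.2.2)) &&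
    (decide (u.2.2 = 0) || decide (v.2.2 = 0))))) ||
  (decide (u.2.2 = 0) && (decide (v.2.2 = 0) && cadB u.1 u.2.1 v.1 v.2.1))

/-- the output matrix -/
def out (M : List (List Bool)) : List (List Bool) :=
  (verts M).map (fun u => (verts M).map (fun w => adB u w))

theorem cadB_iff (a b c d : ℕ) : cadB a b c d = true ↔ cadj a b c d := by
  unfold cadB cadj
  simp only [Bool.or_eq_true, Bool.and_eq_true, decide_eq_true_eq, Bool.not_eq_true',
    decide_eq_false_iff_not, ne_eq]

theorem adB_iff (u v : Lb) : adB u v = true ↔ ladj u v := by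
  unfold adB ladj
  simp only [Bool.or_eq_true, Bool.and_eq_true, decide_eq_true_eq, Bool.not_eq_true',
    decide_eq_false_iff_not, ne_eq, cadB_iff]

theorem adB_symm (a b : Lb) : adB a b = adB b a := by
  rw [Bool.eq_iff_iff, adB_iff, adB_iff]
  exact ⟨ladj_symm, ladj_symm⟩

theorem adB_irrefl (a : Lb) : adB a a = false := by
  rw [Bool.eq_false_iff]
  intro h
  rw [adB_iff] at h
  exact ladj_irrefl a h

theorem length_adjMatrix {n : ℕ} (X : SimpleGraph (Fin n)) : (adjMatrix X).length = n := by
  simp [adjMatrix]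

theorem ent_adjMatrix {n : ℕ} (X : SimpleGraph (Fin n)) (i j : Fin n) :
    ent (adjMatrix X) i j = true ↔ X.Adj i j := by
  unfold ent adjMatrix
  simp

theorem mem_verts {n : ℕ} (X : SimpleGraph (Fin n)) (z : Lb) :
    z ∈ verts (adjMatrix X) ↔ ∃ a : {z : Lb // good n (EX X) z}, a.1 = z := by
  obtain ⟨i, j, t⟩ := z
  unfold verts
  rw [length_adjMatrix]
  simp only [List.mem_filter, List.mem_product, List.mem_range, Subtype.exists,
    exists_prop, exists_eq_right]
  unfold good goodB
  simp only [Bool.or_eq_true, Bool.and_eq_true, decide_eq_true_eq]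
  constructor
  · rintro ⟨⟨hi, hj, ht⟩, h⟩
    have h1 : ent (adjMatrix X) i j = true ↔ EX X i j :=
      (ent_adjMatrix X ⟨i, hi⟩ ⟨j, hj⟩).trans (EX_fin X ⟨i, hi⟩ ⟨j, hj⟩).symm
    rw [h1] at h
    exact ⟨hi, hj, h⟩
  · rintro ⟨hi, hj, h⟩
    have h1 : ent (adjMatrix X) i j = true ↔ EX X i j :=
      (ent_adjMatrix X ⟨i, hi⟩ ⟨j, hj⟩).trans (EX_fin X ⟨i, hi⟩ ⟨j, hj⟩).symm
    rw [h1]
    refine ⟨⟨hi, hj, ?_⟩, h⟩
    rcases h with h | ⟨h, _⟩ | ⟨h, _⟩ <;> omega

theorem nodup_verts (M : List (List Bool)) : (verts M).Nodup := by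
  unfold verts
  have hr : ∀ k : ℕ, (List.range k).Nodup := fun k => List.nodup_range
  exact (List.Nodup.product (hr _) (List.Nodup.product (hr _) (hr _))).filter _

/-- The output is the adjacency matrix of a graph isomorphic to the construction. -/
theorem out_eq {n : ℕ} (X : SimpleGraph (Fin n)) : ∃ (N : ℕ) (X' : SimpleGraph (Fin N)),
    adjMatrix X' = out (adjMatrix X) ∧ Nonempty (X' ≃g GG n (EX X)) := by
  obtain ⟨e, he⟩ := exists_equiv (verts (adjMatrix X)) (nodup_verts _)
    (fun a : {z : Lb // good n (EX X) z} => a.1) Subtype.val_injective (mem_verts X)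
  refine ⟨_, listGraph (verts (adjMatrix X)) adB adB_symm adB_irrefl, ?_, ⟨⟨e, ?_⟩⟩⟩
  · rw [adjMatrix_listGraph]
    rfl
  · intro a b
    show ladj (e a).1 (e b).1 ↔ adB _ _ = true
    rw [he, he, adB_iff]

theorem geo_of_iso {n N : ℕ} (hn : n ≠ 0) {X : SimpleGraph (Fin n)} {X' : SimpleGraph (Fin N)}
    (φ : X' ≃g GG n (EX X)) : Geo7 X' := by
  have h0 : 0 < n := Nat.pos_of_ne_zero hn
  haveI : Nonempty (Fin N) := ⟨φ.symm ⟨(0, 0, 0), h0, h0, Or.inl rfl⟩⟩
  exact ((cert_GG n (EX X)).comap φ).geo7 fun u v => ldist_le _ _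

theorem geo_one : Geo7 (⊥ : SimpleGraph (Fin 1)) := by
  have h : Cert (⊥ : SimpleGraph (Fin 1)) (fun _ _ => 0) := by
    refine ⟨fun _ => rfl, fun u w v h => Nat.zero_le _, fun u v huv => ?_⟩
    exact absurd (Subsingleton.elim u v) huv
  exact h.geo7 fun _ _ => Nat.zero_le _

theorem geo_two : Geo7 (⊤ : SimpleGraph (Fin 2)) := by
  have h : Cert (⊤ : SimpleGraph (Fin 2)) (fun u v => if u = v then 0 else 1) := by
    refine ⟨fun _ => by simp, fun u w v h => by split_ifs <;> omega, fun u v huv => ?_⟩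
    refine ⟨v, huv, ?_, ?_⟩
    · rw [if_pos rfl, if_neg huv]
    · intro w' _ h2
      rw [if_neg huv] at h2
      by_contra h3
      rw [if_neg h3] at h2
      omega
  exact h.geo7 fun u v => by split_ifs <;> omega

/-! ### Valid inputs -/

/-- validity of an adjacency matrix -/
def valid (M : List (List Bool)) : Bool :=
  M.all (fun r => decide (r.length = M.length)) &&
  ((List.range M.length).all (fun i => (List.range M.length).all
    (fun j => decide (ent M i j = ent M j i))) &&
  (List.range M.length).all (fun i => !(ent M i i)))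

theorem valid_iff (M : List (List Bool)) :
    valid M = true ↔ ∃ (n : ℕ) (X : SimpleGraph (Fin n)), adjMatrix X = M := by
  constructor
  · intro h
    simp only [valid, Bool.and_eq_true, List.all_eq_true, List.mem_range, decide_eq_true_eq,
      Bool.not_eq_true'] at h
    obtain ⟨h1, h2, h3⟩ := h
    refine ⟨M.length, ⟨fun i j => ent M i j = true, ⟨fun i j hij => ?_⟩, ⟨fun i hi => ?_⟩⟩, ?_⟩
    · show ent M j i = true
      rw [← h2 i i.2 j j.2]; exact hij
    · rw [h3 i i.2] at hi
      exact absurd hi (by simp)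
    · unfold adjMatrix
      apply List.ext_getElem
      · simp
      · intro i hi hi'
        have hlen : (M[i]).length = M.length := h1 _ (List.getElem_mem _)
        apply List.ext_getElem
        · simp [hlen]
        · intro j hj hj'
          simp only [List.getElem_ofFn]
          have h4 : ent M i j = (M[i])[j] := by
            unfold ent
            rw [List.getD_eq_getElem _ _ hi', List.getD_eq_getElem _ _ hj']
          rw [← h4]
          exact Bool.eq_iff_iff.2 ⟨fun h => @of_decide_eq_true _ (Classical.propDecidable _) h,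
            fun h => @decide_eq_true _ (Classical.propDecidable _) h⟩
  · rintro ⟨n, X, rfl⟩
    simp only [valid, Bool.and_eq_true, List.all_eq_true, List.mem_range, decide_eq_true_eq,
      Bool.not_eq_true', length_adjMatrix]
    refine ⟨?_, ?_, ?_⟩
    · intro r hr
      unfold adjMatrix at hr
      rw [List.mem_ofFn] at hr
      obtain ⟨i, rfl⟩ := hr
      simp
    · intro i hi j hj
      have h1 := ent_adjMatrix X ⟨i, hi⟩ ⟨j, hj⟩
      have h2 := ent_adjMatrix X ⟨j, hj⟩ ⟨i, hi⟩
      rw [X.adj_comm] at h1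
      exact Bool.eq_iff_iff.2 (h1.trans h2.symm)
    · intro i hi
      have h1 := ent_adjMatrix X ⟨i, hi⟩ ⟨i, hi⟩
      rw [Bool.eq_false_iff]
      intro h2
      exact (h1.1 h2).ne rfl

theorem adj_one : adjMatrix (⊥ : SimpleGraph (Fin 1)) = [[false]] := by
  simp [adjMatrix]

theorem adj_two : adjMatrix (⊤ : SimpleGraph (Fin 2)) = [[false, true], [true, false]] := by
  simp [adjMatrix, List.ofFn_succ]

theorem graphIso_iff {n m : ℕ} (X : SimpleGraph (Fin n)) (Y : SimpleGraph (Fin m)) :
    GraphIso (adjMatrix X, adjMatrix Y) ↔ Nonempty (X ≃g Y) := by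
  constructor
  · rintro ⟨n', m', X₁, Y₁, e1, e2, h⟩
    have hn' : n' = n := by
      rw [← length_adjMatrix X₁, e1, length_adjMatrix]
    have hm' : m' = m := by
      rw [← length_adjMatrix Y₁, e2, length_adjMatrix]
    subst hn'
    subst hm'
    rw [adjMatrix_inj e1, adjMatrix_inj e2] at h
    exact h
  · intro h
    exact ⟨n, m, X, Y, rfl, rfl, h⟩

/-- the reduction -/
def red (p : List (List Bool) × List (List Bool)) : List (List Bool) × List (List Bool) :=
  if (valid p.1 = true ∧ valid p.2 = true) ∧ p.1.length = p.2.length then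
    (if p.1.length = 0 then ([[false]], [[false]]) else (out p.1, out p.2))
  else ([[false]], [[false, true], [true, false]])

theorem not_iso_small : ¬ Nonempty ((⊥ : SimpleGraph (Fin 1)) ≃g (⊤ : SimpleGraph (Fin 2))) := by
  rintro ⟨φ⟩
  have := Fintype.card_congr φ.toEquiv
  simp at this

theorem red_spec (p : List (List Bool) × List (List Bool)) :
    ∃ (N M : ℕ) (X' : SimpleGraph (Fin N)) (Y' : SimpleGraph (Fin M)),
      red p = (adjMatrix X', adjMatrix Y') ∧ Geo7 X' ∧ Geo7 Y' ∧
        (GraphIso p ↔ Nonempty (X' ≃g Y')) := by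
  by_cases h : (valid p.1 = true ∧ valid p.2 = true) ∧ p.1.length = p.2.length
  · obtain ⟨p1, p2⟩ := p
    have hcopy := h
    obtain ⟨⟨h1, h2⟩, h3⟩ := h
    rw [valid_iff] at h1 h2
    obtain ⟨n, X, rfl⟩ := h1
    obtain ⟨m, Y, rfl⟩ := h2
    rw [length_adjMatrix, length_adjMatrix] at h3
    subst h3
    by_cases hn : n = 0
    · subst hn
      refine ⟨1, 1, ⊥, ⊥, ?_, geo_one, geo_one, ?_⟩
      · unfold red
        rw [if_pos hcopy, if_pos (length_adjMatrix X), adj_one]
      · rw [graphIso_iff]
        constructor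
        · intro _
          exact ⟨RelIso.refl _⟩
        · intro _
          exact ⟨⟨Equiv.refl _, fun {a} => a.elim0⟩⟩
    · obtain ⟨N, X', hX', ⟨φ⟩⟩ := out_eq X
      obtain ⟨M, Y', hY', ⟨ψ⟩⟩ := out_eq Y
      refine ⟨N, M, X', Y', ?_, geo_of_iso hn φ, geo_of_iso hn ψ, ?_⟩
      · unfold red
        rw [if_pos hcopy, if_neg (by rw [length_adjMatrix]; exact hn), hX', hY']
      · rw [graphIso_iff, iso_iff X Y]
        constructor
        · rintro ⟨χ⟩
          exact ⟨φ.trans (χ.trans ψ.symm)⟩
        · rintro ⟨χ⟩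
          exact ⟨φ.symm.trans (χ.trans ψ)⟩
  · refine ⟨1, 2, ⊥, ⊤, ?_, geo_one, geo_two, ?_⟩
    · unfold red
      rw [if_neg h, adj_one, adj_two]
    · constructor
      · rintro ⟨n, m, X, Y, h1, h2, ⟨φ⟩⟩
        exfalso
        apply h
        refine ⟨⟨(valid_iff _).2 ⟨n, X, h1⟩, (valid_iff _).2 ⟨m, Y, h2⟩⟩, ?_⟩
        rw [← h1, ← h2, length_adjMatrix, length_adjMatrix]
        have := Fintype.card_congr φ.toEquiv
        simpa using this
      · intro h1
        exact absurd h1 not_iso_small

/-! ### Polynomial time -/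

section

variable {α : Type} [TEnc α]

@[fun_prop]
theorem poly_ent {f : α → List (List Bool)} {g h : α → ℕ} (hf : Poly f)
    (hg : Poly g) (hh : Poly h) : Poly (fun a => ent (f a) (g a) (h a)) := by
  unfold ent
  fun_prop

@[fun_prop]
theorem poly_goodB {f : α → List (List Bool)} {z : α → Lb} (hf : Poly f) (hz : Poly z) :
    Poly (fun a => goodB (f a) (z a)) := by
  unfold goodB
  fun_prop

@[fun_prop]
theorem poly_range_len {f : α → List (List Bool)} (hf : Poly f) :
    Poly (fun a => List.range (f a).length) := Poly.range_length hf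

@[fun_prop]
theorem poly_verts {f : α → List (List Bool)} (hf : Poly f) : Poly (fun a => verts (f a)) := by
  unfold verts
  fun_prop

@[fun_prop]
theorem poly_cadB {a b c d : α → ℕ} (ha : Poly a) (hb : Poly b) (hc : Poly c) (hd : Poly d) :
    Poly (fun x => cadB (a x) (b x) (c x) (d x)) := by
  unfold cadB
  fun_prop

@[fun_prop]
theorem poly_adB {a b : α → Lb} (ha : Poly a) (hb : Poly b) :
    Poly (fun x => adB (a x) (b x)) := by
  unfold adB
  fun_prop

@[fun_prop]
theorem poly_out {f : α → List (List Bool)} (hf : Poly f) : Poly (fun a => out (f a)) := by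
  unfold out
  fun_prop

@[fun_prop]
theorem poly_valid {f : α → List (List Bool)} (hf : Poly f) : Poly (fun a => valid (f a)) := by
  unfold valid
  fun_prop

end

theorem poly_red : Poly red := by
  unfold red
  fun_prop

/-- The reduction on bit strings. -/
def redBits (x : List Bool) : List (List Bool) × List (List Bool) :=
  (unbits (List (List Bool) × List (List Bool)) x).elim
    ([[false]], [[false, true], [true, false]]) red

theorem poly_redBits : Poly redBits := by
  unfold redBits
  exact NPC.Poly.optElim poly_unbits (NPC.Poly.const _) (poly_red.comp (NPC.Poly.snd NPC.Poly.id))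

theorem redBits_spec (x : List Bool) :
    ∃ (N M : ℕ) (X' : SimpleGraph (Fin N)) (Y' : SimpleGraph (Fin M)),
      redBits x = (adjMatrix X', adjMatrix Y') ∧ Geo7 X' ∧ Geo7 Y' ∧
        (x ∈ lang GraphIso ↔ Nonempty (X' ≃g Y')) := by
  unfold redBits
  rw [mem_lang_iff]
  cases h : unbits (List (List Bool) × List (List Bool)) x with
  | none =>
    refine ⟨1, 2, ⊥, ⊤, ?_, geo_one, geo_two, ?_⟩
    · rw [adj_one, adj_two]
      rfl
    · constructor
      · rintro ⟨a, ha, _⟩
        exact absurd ha (by simp)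
      · intro h1
        exact absurd h1 not_iso_small
  | some p =>
    obtain ⟨N, M, X', Y', h1, h2, h3, h4⟩ := red_spec p
    refine ⟨N, M, X', Y', h1, h2, h3, ?_⟩
    rw [← h4]
    constructor
    · rintro ⟨a, ha, h5⟩
      rw [Option.some.inj ha]
      exact h5
    · intro h5
      exact ⟨p, rfl, h5⟩

/-- The graph isomorphism problem reduces in polynomial time to the isomorphism problem of
geodetic graphs. -/
theorem main : ∃ f : List Bool → List Bool, PolyTime f ∧ ∀ x : List Bool,
    ∃ (N M : ℕ) (X' : SimpleGraph (Fin N)) (Y' : SimpleGraph (Fin M)),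
      f x = bits (adjMatrix X', adjMatrix Y') ∧ Geo7 X' ∧ Geo7 Y' ∧
        (x ∈ lang GraphIso ↔ Nonempty (X' ≃g Y')) := by
  refine ⟨fun x => bits (redBits x), polyTime_bits poly_redBits, fun x => ?_⟩
  obtain ⟨N, M, X', Y', h1, h2, h3, h4⟩ := redBits_spec x
  exact ⟨N, M, X', Y', congrArg bits h1, h2, h3, h4⟩

theorem bits_mem {N M : ℕ} (X : SimpleGraph (Fin N)) (Y : SimpleGraph (Fin M)) :
    bits (adjMatrix X, adjMatrix Y) ∈ lang GraphIso ↔ Nonempty (X ≃g Y) := by
  rw [bits_mem_lang, graphIso_iff]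

theorem bits_mem_geo {N M : ℕ} (X : SimpleGraph (Fin N)) (Y : SimpleGraph (Fin M))
    (hX : IsGeodetic X) (hY : IsGeodetic Y) :
    bits (adjMatrix X, adjMatrix Y) ∈ lang GeodeticIso ↔ Nonempty (X ≃g Y) := by
  rw [bits_mem_lang]
  constructor
  · rintro ⟨n', m', X₁, Y₁, e1, e2, -, -, h⟩
    have hn' : n' = N := by
      rw [← length_adjMatrix X₁, e1, length_adjMatrix]
    have hm' : m' = M := by
      rw [← length_adjMatrix Y₁, e2, length_adjMatrix]
    subst hn'
    subst hm'
    rw [adjMatrix_inj e1, adjMatrix_inj e2] at h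
    exact h
  · intro h
    exact ⟨N, M, X, Y, rfl, rfl, hX, hY, h⟩

theorem reduces : Reduces (lang GraphIso) (lang GeodeticIso) := by
  obtain ⟨f, hf, h⟩ := main
  refine ⟨f, hf, fun x => ?_⟩
  obtain ⟨N, M, X', Y', h1, h2, h3, h4⟩ := h x
  rw [h4, h1, bits_mem_geo X' Y' h2.1 h3.1]

/-- The question: isomorphism of geodetic graphs is decided in polynomial time iff isomorphism of
arbitrary graphs is. -/
theorem question_iff :
    (∃ A : List Bool → List Bool, PolyTime A ∧
      ∀ (N M : ℕ) (X : SimpleGraph (Fin N)) (Y : SimpleGraph (Fin M)),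
        IsGeodetic X → IsGeodetic Y →
          (A (bits (adjMatrix X, adjMatrix Y)) = [true] ↔ Nonempty (X ≃g Y))) ↔
    ∃ A : List Bool → List Bool, PolyTime A ∧ ∀ x : List Bool, A x = [true] ↔ x ∈ lang GraphIso := by
  constructor
  · rintro ⟨A, hA, h⟩
    obtain ⟨f, hf, hf'⟩ := main
    refine ⟨fun x => A (f x), Pool.Agent.H642R2.TMSim.polyTime_comp hA hf, fun x => ?_⟩
    obtain ⟨N, M, X', Y', h1, h2, h3, h4⟩ := hf' x
    show A (f x) = [true] ↔ _
    rw [h4, ← h N M X' Y' h2.1 h3.1, h1]
  · rintro ⟨A, hA, h⟩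
    refine ⟨A, hA, fun N M X Y _ _ => ?_⟩
    rw [h, bits_mem]

end Pool.Agent.T2h8.GEO
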